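import Pool.Agent.V1120.TC.Graph

/-!
# MP_3e3c2c_co, Q1: the bound `tc_r(δ) ≤ K r ⌈r / log(1/δ)⌉` fails for every constant `K`

`tcr r δ` is `tc_r(δ)`, the limsup over `n` of the largest tree cover number of an
`r`-edge-coloured graph on `n` vertices with minimum degree at least `(1 - δ) n`.
-/

open Filter Topology
open scoped ENNReal

namespace Pool.Agent.Results.MP_3e3c2c_co.IntermediateRegime

/-- `H` is a monochromatic tree for the `r`-edge-colouring `χ` of `G` (a single vertex is a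
monochromatic tree). -/
def IsMonoTree {V : Type} {G : SimpleGraph V} {r : ℕ} (χ : G.EdgeLabeling (Fin r))
    (H : G.Subgraph) : Prop :=
  H.coe.IsTree ∧ ∃ c : Fin r, ∀ e : G.edgeSet, (e : Sym2 V) ∈ H.edgeSet → χ e = c

/-- `𝓣` is a tree cover: its members are monochromatic trees and cover all vertices. -/
def IsTreeCover {V : Type} {G : SimpleGraph V} {r : ℕ} (χ : G.EdgeLabeling (Fin r))
    (𝓣 : Finset G.Subgraph) : Prop :=
  (∀ H ∈ 𝓣, IsMonoTree χ H) ∧ ∀ v, ∃ H ∈ 𝓣, v ∈ H.verts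

/-- The minimum size of a tree cover of the `r`-edge-coloured graph `(G, χ)`. -/
noncomputable def tc {V : Type} {G : SimpleGraph V} {r : ℕ} (χ : G.EdgeLabeling (Fin r)) : ℕ∞ :=
  ⨅ (𝓣 : Finset G.Subgraph) (_ : IsTreeCover χ 𝓣), (𝓣.card : ℕ∞)

/-- `tc_r(δ)`: limsup over `n` of the maximum of `tc` over the `r`-edge-coloured graphs on `n`
vertices of minimum degree at least `(1 - δ) n`. -/
noncomputable def tcr (r : ℕ) (δ : ℝ) : ℕ∞ :=
  limsup (fun n : ℕ => ⨆ (G : SimpleGraph (Fin n)) (χ : G.EdgeLabeling (Fin r))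
    (_ : ∀ v, (1 - δ) * n ≤ ((G.neighborSet v).ncard : ℝ)), tc χ) atTop

open Pool.Agent.V1120.TC in
lemma rho_tendsto (K d : ℕ) : Tendsto (fun g : ℕ => rho K d g) atTop (𝓝 0) := by
  have h1 : Tendsto (fun g : ℕ => Rr K d g - 1) atTop (𝓝 0) := by
    unfold Rr
    have h2 : Tendsto (fun g : ℕ => 4 * (K * (d : ℝ) ^ 2) / (g : ℝ)) atTop (𝓝 0) :=
      tendsto_const_div_atTop_nhds_zero_nat _
    have h3 := (Real.continuous_exp.tendsto 0).comp h2
    rw [Real.exp_zero] at h3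
    have h4 := h3.sub_const 1
    simpa using h4
  have h5 : Tendsto (fun g : ℕ => Real.exp (2 * (K * d : ℝ)) / (g : ℝ)) atTop (𝓝 0) :=
    tendsto_const_div_atTop_nhds_zero_nat _
  have h6 := (h1.add h5).add (((h1.mul_const (Real.exp (2 * (K : ℝ)))).add h5).const_mul 16)
  simpa [rho] using h6

open Pool.Agent.V1120.TC in
/-- lower bound for `tcr` from the construction -/
lemma tcr_ge (K d : ℕ) (hK : 1 ≤ K) (hd : 1 ≤ d) (g : ℕ) (hg : g.Prime) (hdF : 2 * d ≤ g)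
    (hρ : rho K d g * Real.exp (2 * (K * d : ℝ)) ≤ 1 / 8)
    (δ : ℝ) (hδ0 : 0 < δ) (hδ1 : δ < 1)
    (hδ : 2 / (d : ℝ) + rho K d g + Real.exp (-(Real.exp (K / 2 : ℝ) / 16)) ≤ δ / 2)
    (r : ℕ) (hr : (K + 1) * g + 1 ≤ r) :
    ((g ^ 2 / 8 + 1 : ℕ) : ℕ∞) ≤ tcr r δ := by
  have : Fact g.Prime := ⟨hg⟩
  set B : ℕ := g ^ 2 / 8 + 1 with hB
  refine le_limsup_of_frequently_le ?_ (isBoundedUnder_of ⟨⊤, fun _ => le_top⟩)
  rw [frequently_atTop]
  intro n₀
  obtain ⟨n, hn, lab, hdeg, htest⟩ := construct (F := ZMod g) K d hK hd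
    (by rw [ZMod.card]; exact hdF) B (by omega) (by rw [ZMod.card]; omega)
    (by rw [ZMod.card]; exact hρ) δ hδ0 hδ1 (by rw [ZMod.card]; exact hδ) r
    (by rw [ZMod.card]; exact hr) n₀
  refine ⟨n, hn, ?_⟩
  refine le_trans ?_ (le_iSup_of_le (labGraph lab) (le_iSup_of_le (labCol lab)
    (le_iSup_of_le hdeg le_rfl)))
  unfold tc
  refine le_iInf fun 𝓣 => le_iInf fun h𝓣 => ?_
  have := cover_bound lab B htest 𝓣 (fun H hH => h𝓣.1 H hH) h𝓣.2
  exact_mod_cast this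

open Pool.Agent.V1120.TC in
/-- A quantitative form: for all small `δ` and all large `r`, `tc_r(δ) ≥ c r² / (log log(1/δ))²`
with an absolute constant `c > 0`. -/
theorem quant : ∃ c : ℝ, 0 < c ∧ ∃ δ₀ : ℝ, 0 < δ₀ ∧ δ₀ < 1 ∧ ∀ δ : ℝ, 0 < δ → δ < δ₀ →
    ∃ r₀ : ℕ, ∀ r : ℕ, r₀ ≤ r →
      ENNReal.ofReal (c * (r : ℝ) ^ 2 / (Real.log (Real.log (1 / δ))) ^ 2)
        ≤ ((tcr r δ : ℕ∞) : ℝ≥0∞) := by
  refine ⟨1 / 1568, by norm_num, Real.exp (-32), Real.exp_pos _, ?_, ?_⟩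
  · rw [Real.exp_lt_one_iff]; norm_num
  intro δ hδ0 hδ1
  set x : ℝ := Real.log (1 / δ) with hx
  have hx32 : 32 < x := by
    rw [hx, one_div, Real.log_inv]
    have := Real.log_lt_log hδ0 hδ1
    rw [Real.log_exp] at this
    linarith
  have hδlt1 : δ < 1 := by
    refine hδ1.trans ?_
    rw [Real.exp_lt_one_iff]; norm_num
  have hlogx1 : 1 ≤ Real.log x := by
    rw [Real.le_log_iff_exp_le (by linarith)]
    have := Real.exp_one_lt_d9
    linarith
  -- the number of copies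
  have h12 : Real.log (12 / δ) = Real.log 12 + x := by
    rw [hx, div_eq_mul_one_div, Real.log_mul (by norm_num) (by positivity)]
  have hlog12 : Real.log 12 ≤ 11 := by
    have := Real.log_le_sub_one_of_pos (by norm_num : (0 : ℝ) < 12)
    linarith
  have hlog12' : 0 < Real.log 12 := Real.log_pos (by norm_num)
  set z : ℝ := 16 * Real.log (12 / δ) with hz
  have hz0 : 0 < z := by rw [hz, h12]; linarith
  have hzle : z ≤ 32 * x := by rw [hz, h12]; linarith
  have hlogz : Real.log z ≤ 2 * Real.log x := by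
    calc Real.log z ≤ Real.log (32 * x) := Real.log_le_log hz0 hzle
      _ = Real.log 32 + Real.log x := Real.log_mul (by norm_num) (by linarith)
      _ ≤ 2 * Real.log x := by
        have : Real.log 32 ≤ Real.log x := Real.log_le_log (by norm_num) hx32.le
        linarith
  have hlogz1 : 1 ≤ Real.log z := by
    rw [Real.le_log_iff_exp_le hz0]
    have := Real.exp_one_lt_d9
    rw [hz, h12]
    linarith
  set K : ℕ := ⌈2 * Real.log z⌉₊ with hK
  have hK1 : 2 * Real.log z ≤ K := Nat.le_ceil _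
  have hK1' : 1 ≤ K := by
    have : (1 : ℝ) ≤ K := by linarith
    exact_mod_cast this
  have hK2 : (K : ℝ) < 2 * Real.log z + 1 := Nat.ceil_lt_add_one (by linarith)
  have hK3 : (K : ℝ) + 2 ≤ 7 * Real.log x := by linarith
  have hη : Real.exp (-(Real.exp (K / 2 : ℝ) / 16)) ≤ δ / 12 := by
    have h1 : z ≤ Real.exp (K / 2 : ℝ) := by
      calc z = Real.exp (Real.log z) := (Real.exp_log hz0).symm
        _ ≤ Real.exp (K / 2 : ℝ) := Real.exp_le_exp.mpr (by linarith)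
    calc Real.exp (-(Real.exp (K / 2 : ℝ) / 16)) ≤ Real.exp (-(Real.log (12 / δ))) := by
          apply Real.exp_le_exp.mpr
          have : z / 16 = Real.log (12 / δ) := by rw [hz]; ring
          linarith
      _ = δ / 12 := by
          rw [Real.exp_neg, Real.exp_log (by positivity), inv_div]
  -- the number of slopes
  set d : ℕ := ⌈24 / δ⌉₊ with hd
  have hd1 : 24 / δ ≤ d := Nat.le_ceil _
  have hd0 : (0 : ℝ) < d := lt_of_lt_of_le (by positivity) hd1
  have hd1' : 1 ≤ d := by exact_mod_cast hd0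
  have h2d : 2 / (d : ℝ) ≤ δ / 12 := by
    rw [div_le_iff₀ hd0]
    rw [div_le_iff₀ hδ0] at hd1
    linarith
  -- large `g`
  have hev : ∀ᶠ g : ℕ in atTop, rho K d g ≤ δ / 12 ∧
      rho K d g * Real.exp (2 * (K * d : ℝ)) ≤ 1 / 8 ∧ 2 * d ≤ g := by
    have h1 := rho_tendsto K d
    have h2 : Tendsto (fun g : ℕ => rho K d g * Real.exp (2 * (K * d : ℝ))) atTop (𝓝 0) := by
      simpa using h1.mul_const (Real.exp (2 * (K * d : ℝ)))
    exact (h1.eventually_le_const (by positivity)).and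
      ((h2.eventually_le_const (by norm_num)).and (eventually_ge_atTop _))
  obtain ⟨g₀, hg₀⟩ := eventually_atTop.mp hev
  refine ⟨2 * (K + 1) * (g₀ + 1) + 1, ?_⟩
  intro r hr
  set q : ℕ := (r - 1) / (2 * (K + 1)) with hq
  have hq0 : g₀ + 1 ≤ q := by
    rw [hq, Nat.le_div_iff_mul_le (by positivity)]
    have : (g₀ + 1) * (2 * (K + 1)) = 2 * (K + 1) * (g₀ + 1) := by ring
    omega
  obtain ⟨g, hgp, hg1, hg2⟩ := Nat.exists_prime_lt_and_le_two_mul q (by omega)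
  obtain ⟨ha, hb, hc⟩ := hg₀ g (by omega)
  have hq2 : q * (2 * (K + 1)) ≤ r - 1 := Nat.div_mul_le_self _ _
  have hq3 : r - 1 < (q + 1) * (2 * (K + 1)) := by
    rw [hq, mul_comm]
    exact Nat.lt_mul_div_succ (r - 1) (by positivity)
  have hrg : (K + 1) * g + 1 ≤ r := by
    have h1 : (K + 1) * g ≤ (K + 1) * (2 * q) := Nat.mul_le_mul_left _ hg2
    have h2 : (K + 1) * (2 * q) = q * (2 * (K + 1)) := by ring
    omega
  have hge : r ≤ 2 * (K + 2) * g := by
    have h1 : (q + 1) * (2 * (K + 1)) ≤ g * (2 * (K + 1)) := Nat.mul_le_mul_right _ (by omega)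
    have h2 : g * (2 * (K + 1)) ≤ 2 * (K + 2) * g := by nlinarith
    omega
  have hmain := tcr_ge K d hK1' hd1' g hgp hc hb δ hδ0 hδlt1 (by linarith) r hrg
  -- numerical comparison
  have hB : (g : ℝ) ^ 2 / 8 ≤ ((g ^ 2 / 8 + 1 : ℕ) : ℝ) := by
    have h1 : g ^ 2 ≤ 8 * (g ^ 2 / 8 + 1) := by omega
    have h2 : ((g ^ 2 : ℕ) : ℝ) ≤ ((8 * (g ^ 2 / 8 + 1) : ℕ) : ℝ) := by exact_mod_cast h1
    rw [Nat.cast_mul, Nat.cast_pow] at h2
    push_cast at h2 ⊢
    linarith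
  have hcmp : 1 / 1568 * (r : ℝ) ^ 2 / (Real.log x) ^ 2 ≤ ((g ^ 2 / 8 + 1 : ℕ) : ℝ) := by
    refine le_trans ?_ hB
    have hger : (r : ℝ) ≤ 2 * ((K : ℝ) + 2) * g := by exact_mod_cast hge
    have hg0 : (0 : ℝ) ≤ g := by positivity
    have h1 : (r : ℝ) ≤ 14 * Real.log x * g := by
      refine hger.trans ?_
      have : 2 * ((K : ℝ) + 2) * g ≤ 2 * (7 * Real.log x) * g := by
        apply mul_le_mul_of_nonneg_right _ hg0
        linarith
      linarith
    rw [div_le_iff₀ (by positivity)]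
    have h2 : (r : ℝ) ^ 2 ≤ (14 * Real.log x * g) ^ 2 :=
      pow_le_pow_left₀ (by positivity) h1 2
    nlinarith
  calc ENNReal.ofReal (1 / 1568 * (r : ℝ) ^ 2 / (Real.log x) ^ 2)
      ≤ ENNReal.ofReal ((g ^ 2 / 8 + 1 : ℕ) : ℝ) := ENNReal.ofReal_le_ofReal hcmp
    _ = (((g ^ 2 / 8 + 1 : ℕ) : ℕ∞) : ℝ≥0∞) := by
        rw [ENNReal.ofReal_natCast]; rfl
    _ ≤ ((tcr r δ : ℕ∞) : ℝ≥0∞) := by
        exact_mod_cast hmain

/-- **Negative answer to Q1**: for every constant `K`, the inequality of Q1 fails for all small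
`δ` and all `r ≥ r₀(δ)`. -/
theorem result : ∀ K : ℝ, 0 < K → ∃ δ₀ : ℝ, 0 < δ₀ ∧ δ₀ < 1 ∧ ∀ δ : ℝ, 0 < δ → δ < δ₀ →
    ∃ r₀ : ℕ, ∀ r : ℕ, r₀ ≤ r →
      ENNReal.ofReal (K * r * ⌈(r : ℝ) / Real.log (1 / δ)⌉) < ((tcr r δ : ℕ∞) : ℝ≥0∞) := by
  obtain ⟨c, hc, δ₀, hδ₀, hδ₀1, hq⟩ := quant
  intro K hK
  -- choice of `y = log (1/δ)`
  have h1 : ∀ᶠ y : ℝ in atTop, (Real.log y) ^ 2 ≤ c / (4 * K) * y := by
    have h2 := (Real.isLittleO_pow_log_id_atTop (n := 2)).bound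
      (show (0 : ℝ) < c / (4 * K) by positivity)
    filter_upwards [h2, eventually_ge_atTop (0 : ℝ)] with y hy hy0
    simp only [id, Real.norm_eq_abs] at hy
    rw [abs_of_nonneg hy0, abs_of_nonneg (by positivity)] at hy
    exact hy
  obtain ⟨y₀, hy₀⟩ := eventually_atTop.mp (h1.and (eventually_ge_atTop (3 : ℝ)))
  refine ⟨min δ₀ (Real.exp (-y₀)), lt_min hδ₀ (Real.exp_pos _),
    lt_of_le_of_lt (min_le_left _ _) hδ₀1, ?_⟩
  intro δ hδ0 hδlt
  set y : ℝ := Real.log (1 / δ) with hy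
  have hyy : y₀ ≤ y := by
    have h2 : δ < Real.exp (-y₀) := lt_of_lt_of_le hδlt (min_le_right _ _)
    have h3 := Real.log_lt_log hδ0 h2
    rw [Real.log_exp] at h3
    rw [hy, one_div, Real.log_inv]
    linarith
  obtain ⟨hy1, hy3⟩ := hy₀ y hyy
  have hlogy : 0 < Real.log y := Real.log_pos (by linarith)
  obtain ⟨r₀, hr₀⟩ := hq δ hδ0 (lt_of_lt_of_le hδlt (min_le_left _ _))
  rw [← hy] at hr₀
  obtain ⟨N, hN⟩ := exists_nat_ge (4 * K * (Real.log y) ^ 2 / c)
  refine ⟨max r₀ (N + 1), ?_⟩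
  intro r hr
  have hr1 : r₀ ≤ r := le_trans (le_max_left _ _) hr
  have hN0 : 0 ≤ 4 * K * (Real.log y) ^ 2 / c := by positivity
  have hr3 : 4 * K * (Real.log y) ^ 2 / c < r := by
    have : (N + 1 : ℕ) ≤ r := le_trans (le_max_right _ _) hr
    have h5 : ((N + 1 : ℕ) : ℝ) ≤ r := by exact_mod_cast this
    push_cast at h5
    linarith
  refine lt_of_lt_of_le ?_ (hr₀ r hr1)
  have hrpos : (0 : ℝ) < r := lt_of_le_of_lt hN0 hr3
  apply (ENNReal.ofReal_lt_ofReal_iff (by positivity)).mpr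
  have hceil : ((⌈(r : ℝ) / y⌉ : ℤ) : ℝ) < (r : ℝ) / y + 1 := Int.ceil_lt_add_one _
  have hy0 : 0 < y := by linarith
  calc K * r * ((⌈(r : ℝ) / y⌉ : ℤ) : ℝ) < K * r * ((r : ℝ) / y + 1) := by
        apply mul_lt_mul_of_pos_left hceil (by positivity)
    _ = (K / y) * r ^ 2 + K * r := by ring
    _ ≤ (c / (4 * (Real.log y) ^ 2)) * r ^ 2 + (c / (4 * (Real.log y) ^ 2)) * r ^ 2 := by
        apply add_le_add
        · apply mul_le_mul_of_nonneg_right _ (by positivity)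
          rw [div_le_div_iff₀ hy0 (by positivity)]
          have h6 : 4 * K * (Real.log y) ^ 2 ≤ c * y := by
            calc 4 * K * (Real.log y) ^ 2 ≤ 4 * K * (c / (4 * K) * y) :=
                  mul_le_mul_of_nonneg_left hy1 (by positivity)
              _ = c * y := by field_simp
          linarith
        · rw [div_lt_iff₀ hc] at hr3
          rw [div_mul_eq_mul_div, le_div_iff₀ (by positivity)]
          nlinarith
    _ = c * (r : ℝ) ^ 2 / (2 * (Real.log y) ^ 2) := by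
        field_simp
        ring
    _ ≤ c * (r : ℝ) ^ 2 / (Real.log y) ^ 2 := by
        apply div_le_div_of_nonneg_left (by positivity) (by positivity)
        have : 0 < (Real.log y) ^ 2 := by positivity
        linarith

end Pool.Agent.Results.MP_3e3c2c_co.IntermediateRegime
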